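import Pool.Agent.K7.H3.CN_NECK

set_option autoImplicit false

/-!
# Project CN: almost geodesic compact spaces are geodesic
-/

namespace Pool.Agent.K7.H3.CN

open Filter Topology Set Pool.Agent.K7.H36.CN

theorem geo_of_approx {X : Type} [MetricSpace X] [CompactSpace X]
    (h : ∀ (p q : X) (ε : ℝ), 0 < ε → ∃ L : ℝ, 0 ≤ L ∧ L < dist p q + ε ∧
      ∃ γ : ℝ → X, LipschitzWith 1 γ ∧ γ 0 = p ∧ γ L = q) : Geo X := by
  intro p q
  let C : ℕ → Set (ℝ → X) := fun n => {γ | (∀ s t : ℝ, dist (γ s) (γ t) ≤ dist s t) ∧ γ 0 = p ∧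
    dist (γ (dist p q)) q ≤ 1 / ((n : ℝ) + 1)}
  have hcl : ∀ n, IsClosed (C n) := by
    intro n
    have e : C n = (⋂ s : ℝ, ⋂ t : ℝ, {γ : ℝ → X | dist (γ s) (γ t) ≤ dist s t}) ∩
        ({γ : ℝ → X | γ 0 = p} ∩ {γ : ℝ → X | dist (γ (dist p q)) q ≤ 1 / ((n : ℝ) + 1)}) := by
      ext γ
      simp only [C, mem_inter_iff, mem_iInter, mem_ofPred_eq]
    rw [e]
    refine IsClosed.inter ?_ (IsClosed.inter ?_ ?_)
    · refine isClosed_iInter fun s => isClosed_iInter fun t => ?_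
      exact isClosed_le ((continuous_apply s).dist (continuous_apply t)) continuous_const
    · exact isClosed_eq (continuous_apply _) continuous_const
    · exact isClosed_le ((continuous_apply _).dist continuous_const) continuous_const
  have hne : ∀ n, (C n).Nonempty := by
    intro n
    obtain ⟨L, h0, h1, γ, hγ, a, b⟩ := h p q (1 / ((n : ℝ) + 1)) (by positivity)
    refine ⟨γ, fun s t => by simpa using hγ.dist_le_mul s t, a, ?_⟩
    have h2 := hγ.dist_le_mul 0 L
    rw [a, b] at h2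
    have h3 := hγ.dist_le_mul (dist p q) L
    rw [b] at h3
    simp only [NNReal.coe_one, one_mul, Real.dist_eq] at h2 h3
    rw [zero_sub, abs_neg, abs_of_nonneg h0] at h2
    rw [abs_sub_comm, abs_of_nonneg (by linarith)] at h3
    linarith
  have hmono : ∀ n, C (n + 1) ⊆ C n := by
    intro n γ hγ
    refine ⟨hγ.1, hγ.2.1, hγ.2.2.trans ?_⟩
    push_cast
    gcongr
    linarith
  obtain ⟨γ, hγ⟩ := IsCompact.nonempty_iInter_of_sequence_nonempty_isCompact_isClosed C hmono hne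
    (hcl 0).isCompact hcl
  rw [mem_iInter] at hγ
  refine ⟨γ, LipschitzWith.of_dist_le_mul fun s t => by simpa using (hγ 0).1 s t, (hγ 0).2.1, ?_⟩
  refine dist_le_zero.1 (le_of_forall_pos_lt_add fun ε hε => ?_)
  obtain ⟨n, hn⟩ := exists_nat_one_div_lt hε
  rw [zero_add]
  exact ((hγ n).2.2).trans_lt hn

end Pool.Agent.K7.H3.CN
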