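import Pool.Agent.K7.H36.CN.Defs

set_option autoImplicit false

/-!
# Project CN, job NECK: the beads are attached to a segment
-/

namespace Pool.Agent.K7.H3.CN

open Filter Topology Set Pool.Agent.K7.H36.CN

/-- A system of small beads. -/
structure Sys where
  B : ℕ → Type
  m : ∀ k, MetricSpace (B k)
  c : ∀ k, CompactSpace (B k)
  b : ∀ k, B k
  bd : ∀ k (x y : B k), dist x y ≤ (1 / 2 : ℝ) ^ k / 64
  geo : ∀ k, Geo (B k)
  K : ℕ
  dbl : ∀ k, IsDoubling (B k) K

attribute [instance] Sys.m Sys.c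

/-- The points of the necklace. -/
structure Pt (Y : Sys) where
  t : ℝ
  x : ∀ k, Y.B k
  ht : t ∈ Icc (0 : ℝ) 1
  hx : ∀ k, x k = Y.b k ∨ t = (1 / 2 : ℝ) ^ k

variable {Y : Sys}

theorem pt_ext {p q : Pt Y} (h : p.t = q.t) (h' : ∀ k, p.x k = q.x k) : p = q := by
  obtain ⟨t, x, ht, hx⟩ := p
  obtain ⟨t', x', ht', hx'⟩ := q
  obtain rfl : t = t' := h
  obtain rfl : x = x' := funext h'
  rfl

theorem summ (x y : ∀ k, Y.B k) : Summable fun k => dist (x k) (y k) :=
  Summable.of_nonneg_of_le (fun k => dist_nonneg) (fun k => Y.bd k _ _)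
    (summable_geometric_two.div_const 64)

noncomputable instance : MetricSpace (Pt Y) where
  dist p q := |p.t - q.t| + ∑' k, dist (p.x k) (q.x k)
  dist_self p := by simp
  dist_comm p q := by
    rw [abs_sub_comm]
    simp only [dist_comm]
  dist_triangle p q r := by
    have h1 := abs_sub_le p.t q.t r.t
    have h2 : ∑' k, dist (p.x k) (r.x k) ≤
        ∑' k, dist (p.x k) (q.x k) + ∑' k, dist (q.x k) (r.x k) := by
      rw [← (summ _ _).tsum_add (summ _ _)]
      exact (summ _ _).tsum_le_tsum (fun k => dist_triangle _ _ _) ((summ _ _).add (summ _ _))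
    linarith
  eq_of_dist_eq_zero := by
    intro p q h
    have h0 : 0 ≤ ∑' k, dist (p.x k) (q.x k) := tsum_nonneg fun k => dist_nonneg
    have h1 : |p.t - q.t| = 0 := le_antisymm (by linarith) (abs_nonneg _)
    have h2 : ∑' k, dist (p.x k) (q.x k) = 0 := by linarith
    refine pt_ext (by linarith [abs_eq_zero.1 h1]) fun k => ?_
    have h3 := (hasSum_zero_iff_of_nonneg (fun k => dist_nonneg)).1 (h2 ▸ (summ p.x q.x).hasSum)
    exact dist_eq_zero.1 (congrFun h3 k)

theorem dist_def (p q : Pt Y) : dist p q = |p.t - q.t| + ∑' k, dist (p.x k) (q.x k) := rfl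

theorem dist_t_le (p q : Pt Y) : |p.t - q.t| ≤ dist p q := by
  have h0 : 0 ≤ ∑' k, dist (p.x k) (q.x k) := tsum_nonneg fun k => dist_nonneg
  rw [dist_def]; linarith

theorem dist_x_le (p q : Pt Y) (k : ℕ) : dist (p.x k) (q.x k) ≤ dist p q := by
  have h0 := (summ p.x q.x).le_tsum k fun j _ => dist_nonneg
  have h1 := abs_nonneg (p.t - q.t)
  rw [dist_def]; linarith

/-- the attaching heights are different -/
theorem pow_inj {j k : ℕ} (h : (1 / 2 : ℝ) ^ j = (1 / 2 : ℝ) ^ k) : j = k :=
  pow_right_injective₀ (by norm_num) (by norm_num) h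

theorem pow_mem (k : ℕ) : (1 / 2 : ℝ) ^ k ∈ Icc (0 : ℝ) 1 :=
  ⟨by positivity, pow_le_one₀ (by norm_num) (by norm_num)⟩

/-- the embedding of the bead -/
noncomputable def io (k : ℕ) (y : Y.B k) : Pt Y where
  t := (1 / 2 : ℝ) ^ k
  x := Function.update Y.b k y
  ht := pow_mem k
  hx j := by
    by_cases h : j = k
    · exact Or.inr (by rw [h])
    · exact Or.inl (by rw [Function.update_of_ne h])

theorem io_x (k : ℕ) (y : Y.B k) : (io k y).x k = y := by
  simp [io]

theorem dist_io (k : ℕ) (y y' : Y.B k) : dist (io k y) (io k y') = dist y y' := by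
  rw [dist_def]
  have h : ∀ j, j ≠ k → dist ((io k y).x j) ((io k y').x j) = 0 := by
    intro j hj
    simp [io, Function.update_of_ne hj]
  rw [tsum_eq_single k h, io_x, io_x]
  simp [io]

theorem eq_io {p : Pt Y} {k : ℕ} (h : p.x k ≠ Y.b k) : p = io k (p.x k) := by
  have ht : p.t = (1 / 2 : ℝ) ^ k := (p.hx k).resolve_left h
  refine pt_ext ht fun j => ?_
  by_cases hj : j = k
  · subst hj; rw [io_x]
  · have : (io k (p.x k)).x j = Y.b j := by simp [io, Function.update_of_ne hj]
    rw [this]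
    rcases p.hx j with h' | h'
    · exact h'
    · exact absurd (pow_inj (h'.symm.trans ht)) hj

/-- the segment -/
noncomputable def sg (Y : Sys) (s : ℝ) : Pt Y where
  t := (projIcc (0 : ℝ) 1 zero_le_one s : ℝ)
  x := Y.b
  ht := (projIcc (0 : ℝ) 1 zero_le_one s).2
  hx _ := Or.inl rfl

theorem dist_sg (s s' : ℝ) : dist (sg Y s) (sg Y s') ≤ |s - s'| := by
  rw [dist_def]
  simp only [sg, dist_self, tsum_zero, add_zero]
  exact abs_projIcc_sub_projIcc (h := zero_le_one)

theorem sg_t {s : ℝ} (hs : s ∈ Icc (0 : ℝ) 1) : (sg Y s).t = s := by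
  simp [sg, projIcc_of_mem zero_le_one hs]

/-- the projection to the segment -/
theorem dist_pi (p q : Pt Y) (h : ∀ k, p.x k = Y.b k ∨ q.x k = Y.b k) :
    dist p q = dist p (sg Y p.t) + (|p.t - q.t| + dist (sg Y q.t) q) := by
  rw [dist_def p q, dist_def, dist_def, sg_t p.ht, sg_t q.ht]
  have : ∀ k, dist (p.x k) (q.x k) = dist (p.x k) ((sg Y p.t).x k) + dist ((sg Y q.t).x k) (q.x k) := by
    intro k
    rcases h k with h | h <;> simp [sg, h]
  rw [tsum_congr this, (summ _ _).tsum_add (summ _ _)]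
  simp
  ring

theorem compact : CompactSpace (Pt Y) := by
  let P := {z : Icc (0 : ℝ) 1 × (∀ k, Y.B k) // ∀ k, z.2 k = Y.b k ∨ (z.1 : ℝ) = (1 / 2 : ℝ) ^ k}
  have hc : IsClosed {z : Icc (0 : ℝ) 1 × (∀ k, Y.B k) |
      ∀ k, z.2 k = Y.b k ∨ (z.1 : ℝ) = (1 / 2 : ℝ) ^ k} := by
    rw [Set.ofPred_forall]
    refine isClosed_iInter fun k => ?_
    refine IsClosed.union ?_ ?_
    · exact isClosed_eq ((continuous_apply k).comp continuous_snd) continuous_const
    · exact isClosed_eq (continuous_subtype_val.comp continuous_fst) continuous_const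
  have hP : CompactSpace P := isCompact_iff_compactSpace.1 hc.isCompact
  let f : P → Pt Y := fun z => ⟨(z.1.1 : ℝ), z.1.2, z.1.1.2, z.2⟩
  have hf : Continuous f := by
    rw [continuous_iff_continuousAt]
    intro z
    rw [ContinuousAt, tendsto_iff_dist_tendsto_zero]
    have hcont : Continuous fun w : P => dist (f w) (f z) := by
      have e : (fun w : P => dist (f w) (f z)) = fun w : P =>
          |(w.1.1 : ℝ) - z.1.1| + ∑' k, dist (w.1.2 k) (z.1.2 k) := rfl
      rw [e]
      refine Continuous.add ?_ ?_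
      · fun_prop
      · refine continuous_tsum (u := fun k => (1 / 2 : ℝ) ^ k / 64) (fun k => ?_)
          (summable_geometric_two.div_const 64) (fun k w => ?_)
        · fun_prop
        · rw [Real.norm_of_nonneg dist_nonneg]
          exact Y.bd k _ _
    have := hcont.tendsto z
    rwa [dist_self] at this
  have hs : Function.Surjective f := fun p => ⟨⟨(⟨p.t, p.ht⟩, p.x), p.hx⟩, rfl⟩
  exact ⟨by rw [← hs.range_eq]; exact isCompact_range hf⟩

/-- concatenation of paths -/
theorem concat {X : Type} [MetricSpace X] {x y z : X} {L L' : ℝ} (h0 : 0 ≤ L)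
    (h : ∃ γ : ℝ → X, LipschitzWith 1 γ ∧ γ 0 = x ∧ γ L = y)
    (h' : ∃ γ : ℝ → X, LipschitzWith 1 γ ∧ γ 0 = y ∧ γ L' = z) (h0' : 0 ≤ L') :
    ∃ γ : ℝ → X, LipschitzWith 1 γ ∧ γ 0 = x ∧ γ (L + L') = z := by
  obtain ⟨γ, hγ, a, b⟩ := h
  obtain ⟨γ', hγ', a', b'⟩ := h'
  have key : ∀ s s' : ℝ, s ≤ L → L ≤ s' → dist (γ s) (γ' (s' - L)) ≤ dist s s' := by
    intro s s' hs hs'
    have h1 := hγ.dist_le_mul s L
    have h2 := hγ'.dist_le_mul 0 (s' - L)
    rw [a'] at h2
    rw [b] at h1
    have h3 := dist_triangle (γ s) y (γ' (s' - L))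
    simp only [NNReal.coe_one, one_mul, Real.dist_eq] at h1 h2 ⊢
    rw [abs_of_nonpos (by linarith)] at h1 h2 ⊢
    linarith
  refine ⟨fun s => if s ≤ L then γ s else γ' (s - L), ?_, ?_, ?_⟩
  · refine LipschitzWith.of_dist_le_mul fun s s' => ?_
    simp only [NNReal.coe_one, one_mul]
    by_cases h1 : s ≤ L <;> by_cases h2 : s' ≤ L
    · rw [if_pos h1, if_pos h2]
      simpa using hγ.dist_le_mul s s'
    · rw [if_pos h1, if_neg h2]
      exact key s s' h1 (not_le.1 h2).le
    · rw [if_neg h1, if_pos h2, dist_comm, dist_comm s]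
      exact key s' s h2 (not_le.1 h1).le
    · rw [if_neg h1, if_neg h2]
      have := hγ'.dist_le_mul (s - L) (s' - L)
      simpa using this
  · simp only [h0, if_true, a]
  · by_cases hL : L' = 0
    · subst hL
      rw [add_zero]
      simp only [le_refl, if_true, b]
      rw [← b', a']
    · have : ¬ L + L' ≤ L := by
        have := lt_of_le_of_ne h0' (Ne.symm hL)
        linarith
      simp only [this, if_false, add_sub_cancel_left, b']

/-- a bead is reached by geodesics -/
theorem geo_io (k : ℕ) (y y' : Y.B k) :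
    ∃ γ : ℝ → Pt Y, LipschitzWith 1 γ ∧ γ 0 = io k y ∧ γ (dist (io k y) (io k y')) = io k y' := by
  obtain ⟨γ, hγ, a, b⟩ := Y.geo k y y'
  refine ⟨fun s => io k (γ s), LipschitzWith.of_dist_le_mul fun s s' => ?_, congrArg (io k) a, ?_⟩
  · rw [dist_io]; exact hγ.dist_le_mul s s'
  · rw [dist_io]; exact congrArg (io k) b

theorem geo_pi (p : Pt Y) : (∃ γ : ℝ → Pt Y, LipschitzWith 1 γ ∧ γ 0 = p ∧
      γ (dist p (sg Y p.t)) = sg Y p.t) ∧
    (∃ γ : ℝ → Pt Y, LipschitzWith 1 γ ∧ γ 0 = sg Y p.t ∧ γ (dist (sg Y p.t) p) = p) := by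
  by_cases h : ∃ k, p.x k ≠ Y.b k
  · obtain ⟨k, hk⟩ := h
    have e : sg Y p.t = io k (Y.b k) := by
      refine pt_ext ?_ fun j => ?_
      · rw [sg_t p.ht]; exact (p.hx k).resolve_left hk
      · simp [sg, io]
    have e' := eq_io hk
    rw [e, e']
    exact ⟨geo_io _ _ _, geo_io _ _ _⟩
  · push Not at h
    have e : sg Y p.t = p := pt_ext (sg_t p.ht) fun j => (h j).symm
    rw [e, dist_self]
    exact ⟨⟨fun _ => p, LipschitzWith.const' p, rfl, rfl⟩, ⟨fun _ => p, LipschitzWith.const' p, rfl, rfl⟩⟩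

theorem geo_sg {s s' : ℝ} : ∃ γ : ℝ → Pt Y, LipschitzWith 1 γ ∧
    γ 0 = sg Y s ∧ γ (|s - s'|) = sg Y s' := by
  rcases le_total s s' with h | h
  · refine ⟨fun u => sg Y (s + u), LipschitzWith.of_dist_le_mul fun u u' => ?_, by simp, ?_⟩
    · refine (dist_sg _ _).trans ?_
      simp [Real.dist_eq]
    · rw [abs_of_nonpos (by linarith)]; simp
  · refine ⟨fun u => sg Y (s - u), LipschitzWith.of_dist_le_mul fun u u' => ?_, by simp, ?_⟩
    · refine (dist_sg _ _).trans ?_
      simp only [Real.dist_eq, NNReal.coe_one, one_mul, sub_sub_sub_cancel_left]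
      rw [abs_sub_comm]
    · rw [abs_of_nonneg (by linarith)]; simp

theorem geo : Geo (Pt Y) := by
  intro p q
  by_cases h : ∀ k, p.x k = Y.b k ∨ q.x k = Y.b k
  · rw [dist_pi p q h]
    refine concat dist_nonneg (geo_pi p).1 (concat (abs_nonneg _) geo_sg (geo_pi q).2 dist_nonneg) ?_
    have := abs_nonneg (p.t - q.t)
    have := @dist_nonneg _ _ (sg Y q.t) q
    linarith
  · push Not at h
    obtain ⟨k, hp, hq⟩ := h
    have e := eq_io hp
    have e' := eq_io hq
    rw [e, e']
    exact geo_io _ _ _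

theorem geodesic_of_geo {X : Type} [MetricSpace X] (h : Geo X) : IsGeodesicSpace X := by
  intro x y
  obtain ⟨γ, hγ, a, b⟩ := h x y
  have h0 : 0 ≤ dist x y := dist_nonneg
  refine ⟨fun s => γ (s * dist x y), ?_, by simpa using a, by simpa using b, le_antisymm ?_ ?_⟩
  · exact (hγ.continuous.comp (continuous_mul_const _)).continuousOn
  · have h1 := (hγ.lipschitzOnWith (s := univ)).comp_eVariationOn_le
      (g := fun s : ℝ => s * dist x y) (s := Icc 0 1) (fun _ _ => mem_univ _)
    refine h1.trans ?_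
    have hm : MonotoneOn (fun s : ℝ => s * dist x y) (Icc 0 1) :=
      fun s _ s' _ hs => mul_le_mul_of_nonneg_right hs h0
    have h2 := hm.eVariationOn_le (a := 0) (b := 1) (by simp) (by simp)
    simp only [inter_self, one_mul, zero_mul, sub_zero] at h2
    rw [ENNReal.coe_one, one_mul, edist_dist]
    exact h2
  · have h1 := eVariationOn.edist_le (fun s => γ (s * dist x y)) (s := Icc (0 : ℝ) 1)
      (x := 0) (y := 1) (by simp) (by simp)
    simpa [a, b] using h1

theorem doubling : IsDoubling (Pt Y) (9 + Y.K) := by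
  classical
  intro p r hr
  -- the points close to the segment
  let s1 : Finset (Pt Y) :=
    (Finset.Icc (-4 : ℤ) 4).image fun j : ℤ => sg Y (p.t + (j : ℝ) * (r / 4))
  have hs1 : s1.card ≤ 9 := (Finset.card_image_le).trans (by simp)
  have main : ∀ q : Pt Y, dist q p < r → dist q (sg Y q.t) ≤ r / 4 →
      ∃ c ∈ s1, dist q c < r / 2 := by
    intro q hq hq'
    have h1 : |q.t - p.t| < r := (dist_t_le _ _).trans_lt hq
    set u : ℝ := (q.t - p.t) / (r / 4) with hu
    have hur : u * (r / 4) = q.t - p.t := by rw [hu]; field_simp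
    have hj := abs_sub_round u
    have hub : |u| < 4 := by
      rw [hu, abs_div, abs_of_pos (by positivity : 0 < r / 4), div_lt_iff₀ (by positivity)]
      linarith
    have hj4 : round u ∈ Finset.Icc (-4 : ℤ) 4 := by
      rw [abs_le] at hj
      rw [abs_lt] at hub
      rw [Finset.mem_Icc]
      constructor
      · have : (-5 : ℝ) < (round u : ℝ) := by linarith
        have : (-5 : ℤ) < round u := by exact_mod_cast this
        omega
      · have : (round u : ℝ) < 5 := by linarith
        have : round u < (5 : ℤ) := by exact_mod_cast this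
        omega
    refine ⟨sg Y (p.t + (round u : ℤ) * (r / 4)), Finset.mem_image.2 ⟨_, hj4, rfl⟩, ?_⟩
    have h2 := dist_triangle q (sg Y q.t) (sg Y (p.t + (round u : ℤ) * (r / 4)))
    have h3 := dist_sg (Y := Y) q.t (p.t + (round u : ℤ) * (r / 4))
    have h4 : q.t - (p.t + (round u : ℤ) * (r / 4)) = (u - round u) * (r / 4) := by
      rw [sub_mul, hur]; ring
    rw [h4, abs_mul, abs_of_pos (by positivity : 0 < r / 4)] at h3
    have h5 : |u - round u| * (r / 4) ≤ 1 / 2 * (r / 4) :=
      mul_le_mul_of_nonneg_right hj (by positivity)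
    linarith
  by_cases hk : ∃ k : ℕ, 16 * r < (1 / 2 : ℝ) ^ k ∧ |(1 / 2 : ℝ) ^ k - p.t| < r
  · obtain ⟨k, hk1, hk2⟩ := hk
    obtain ⟨s2, hs2, hc2⟩ := Y.dbl k (p.x k) r hr
    refine ⟨s1 ∪ s2.image (io k), ?_, ?_⟩
    · refine (Finset.card_union_le _ _).trans (Nat.add_le_add hs1 ?_)
      exact Finset.card_image_le.trans hs2
    · intro q hq
      rw [Metric.mem_ball] at hq
      simp only [mem_iUnion, Finset.mem_union, exists_prop, Metric.mem_ball]
      by_cases hq' : dist q (sg Y q.t) ≤ r / 4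
      · obtain ⟨c, hc, hd⟩ := main q hq hq'
        exact ⟨c, Or.inl hc, hd⟩
      · push Not at hq'
        have hex : ∃ j, q.x j ≠ Y.b j := by
          by_contra hcon
          push Not at hcon
          have : sg Y q.t = q := pt_ext (sg_t q.ht) fun j => (hcon j).symm
          rw [this, dist_self] at hq'
          linarith
        obtain ⟨j, hj⟩ := hex
        have ht := (q.hx j).resolve_left hj
        have hjk : j = k := by
          have e : sg Y q.t = io j (Y.b j) := by
            refine pt_ext ?_ fun j' => ?_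
            · rw [sg_t q.ht]; exact ht
            · simp [sg, io]
          have h5 : dist q (sg Y q.t) ≤ (1 / 2 : ℝ) ^ j / 64 := by
            rw [e, eq_io hj, dist_io]
            exact Y.bd _ _ _
          have h6 : 16 * r < (1 / 2 : ℝ) ^ j := by linarith
          have h7 : |(1 / 2 : ℝ) ^ j - p.t| < r := by
            rw [← ht]; exact (dist_t_le _ _).trans_lt hq
          rw [abs_lt] at h7 hk2
          by_contra hne
          rcases lt_or_gt_of_ne hne with hlt | hlt
          · have : (1 / 2 : ℝ) ^ k ≤ (1 / 2 : ℝ) ^ (j + 1) :=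
              pow_le_pow_of_le_one (by norm_num) (by norm_num) hlt
            rw [pow_succ] at this
            linarith
          · have : (1 / 2 : ℝ) ^ j ≤ (1 / 2 : ℝ) ^ (k + 1) :=
              pow_le_pow_of_le_one (by norm_num) (by norm_num) hlt
            rw [pow_succ] at this
            linarith
        subst hjk
        have hb : q.x j ∈ Metric.ball (p.x j) r := (dist_x_le q p j).trans_lt hq
        have := hc2 hb
        simp only [mem_iUnion, exists_prop, Metric.mem_ball] at this
        obtain ⟨c, hc, hd⟩ := this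
        refine ⟨io j c, Or.inr (Finset.mem_image.2 ⟨c, hc, rfl⟩), ?_⟩
        rw [eq_io hj, dist_io]
        exact hd
  · refine ⟨s1, hs1.trans (Nat.le_add_right _ _), ?_⟩
    intro q hq
    rw [Metric.mem_ball] at hq
    simp only [mem_iUnion, exists_prop, Metric.mem_ball]
    refine main q hq ?_
    by_contra hq'
    push Not at hq'
    have hex : ∃ j, q.x j ≠ Y.b j := by
      by_contra hcon
      push Not at hcon
      have : sg Y q.t = q := pt_ext (sg_t q.ht) fun j => (hcon j).symm
      rw [this, dist_self] at hq'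
      linarith
    obtain ⟨j, hj⟩ := hex
    have ht := (q.hx j).resolve_left hj
    have e : sg Y q.t = io j (Y.b j) := by
      refine pt_ext ?_ fun j' => ?_
      · rw [sg_t q.ht]; exact ht
      · simp [sg, io]
    have h5 : dist q (sg Y q.t) ≤ (1 / 2 : ℝ) ^ j / 64 := by
      rw [e, eq_io hj, dist_io]
      exact Y.bd _ _ _
    refine hk ⟨j, by linarith, ?_⟩
    rw [← ht]
    exact (dist_t_le _ _).trans_lt hq

theorem robber (k : ℕ) (h : ∃ S : RobberStrategy (Y.B k) k, S.Wins) :
    ∃ S : RobberStrategy (Pt Y) k, S.Wins := by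
  obtain ⟨S, hS⟩ := h
  have hplay : ∀ c : ℕ → Fin k → Pt Y, IsCopPlay (fun i => io k (S.start i)) S.τ c →
      IsCopPlay S.start S.τ fun n i => (c n i).x k := by
    intro c hc
    refine ⟨?_, fun n i => (dist_x_le _ _ k).trans (hc.2 n i)⟩
    funext i
    simp only [hc.1, io_x]
  refine ⟨⟨fun i => io k (S.start i), S.τ, fun n c => io k (S.pos n fun j i => (c j i).x k),
    S.τ_pos, S.τ_sum, ?_⟩, ?_⟩
  · intro c hc n
    rw [dist_io]
    exact S.legal _ (hplay c hc) n
  · intro c hc
    obtain ⟨v, hv, hv'⟩ := hS _ (hplay c hc)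
    refine ⟨v, hv, fun n i => (hv' n i).trans ?_⟩
    have := dist_x_le (io k (S.pos n fun j i => (c j i).x k)) (c n i) k
    rwa [io_x] at this

theorem neck : StNeck := by
  rintro ⟨K, hK⟩
  choose B hm hc hg hd hb hr using fun k : ℕ => hK k ((1 / 2 : ℝ) ^ k / 64) (by positivity)
  have hne : ∀ k, Nonempty (B k) := fun k => ⟨(hr k).choose.pos 0 fun j => j.elim0⟩
  let Y : Sys :=
    { B := B
      m := hm
      c := hc
      b := fun k => (hne k).some
      bd := hb
      geo := hg
      K := K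
      dbl := hd }
  exact ⟨Pt Y, inferInstance, compact, geodesic_of_geo geo, ⟨_, doubling⟩,
    fun k => robber (Y := Y) k (hr k)⟩

end Pool.Agent.K7.H3.CN
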