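import Mathlib
import Pool.Agent.K7.H47.DM.Stm4

set_option autoImplicit false

namespace Pool.Agent.K7.H3.D4
open Pool.Agent.K7.H47.DM4

theorem core {ι : Type} [Fintype ι] [DecidableEq ι] (t j cl : ι → ℕ)
    (σ σ' : Equiv.Perm ι) (hσ : Feas t j σ) (hσ' : Feas t j σ')
    (hopt : ∀ τ, Feas t j τ → Wt t cl τ ≤ Wt t cl σ) (r : ι)
    (hr : ∀ s, t s < t r → cl (σ.symm s) = cl (σ'.symm s))
    (hlt : cl (σ'.symm r) < cl (σ.symm r)) (ht : Function.Injective t) : False := by
  classical
  obtain ⟨x, hx1, hx2, hx3⟩ : ∃ x, cl x = cl (σ'.symm r) ∧ t (σ' x) ≤ t r ∧ t r < t (σ x) := by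
    by_contra hcon
    push Not at hcon
    let A := Finset.univ.filter (fun x => cl x = cl (σ'.symm r) ∧ t (σ x) < t r)
    let A' := Finset.univ.filter (fun x => cl x = cl (σ'.symm r) ∧ t (σ' x) < t r)
    have hcard : A.card = A'.card := by
      have h1 : A.image σ = A'.image σ' := by
        ext s
        simp only [A, A', Finset.mem_image, Finset.mem_filter, Finset.mem_univ, true_and]
        constructor
        · rintro ⟨x, ⟨h1, h2⟩, rfl⟩
          refine ⟨σ'.symm (σ x), ⟨?_, ?_⟩, ?_⟩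
          · rw [← hr _ h2, Equiv.symm_apply_apply]; exact h1
          · rw [Equiv.apply_symm_apply]; exact h2
          · rw [Equiv.apply_symm_apply]
        · rintro ⟨x, ⟨h1, h2⟩, rfl⟩
          refine ⟨σ.symm (σ' x), ⟨?_, ?_⟩, ?_⟩
          · rw [hr _ h2, Equiv.symm_apply_apply]; exact h1
          · rw [Equiv.apply_symm_apply]; exact h2
          · rw [Equiv.apply_symm_apply]
      rw [← Finset.card_image_of_injective A σ.injective, h1,
        Finset.card_image_of_injective _ σ'.injective]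
    have hn : σ'.symm r ∉ A' := by simp [A']
    have hsub : insert (σ'.symm r) A' ⊆ A := by
      intro x hx
      have hx' : cl x = cl (σ'.symm r) ∧ t (σ' x) ≤ t r := by
        rw [Finset.mem_insert] at hx
        rcases hx with rfl | hx
        · exact ⟨rfl, by rw [Equiv.apply_symm_apply]⟩
        · simp only [A', Finset.mem_filter, Finset.mem_univ, true_and] at hx
          exact ⟨hx.1, hx.2.le⟩
      have h2 := hcon x hx'.1 hx'.2
      simp only [A, Finset.mem_filter, Finset.mem_univ, true_and]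
      refine ⟨hx'.1, lt_of_le_of_ne h2 ?_⟩
      intro h3
      have h4 : σ x = r := ht h3
      have h5 : x = σ.symm r := by rw [← h4, Equiv.symm_apply_apply]
      rw [← h5, hx'.1] at hlt
      exact lt_irrefl _ hlt
    have := Finset.card_le_card hsub
    rw [Finset.card_insert_of_notMem hn] at this
    omega
  obtain ⟨y, hy⟩ : ∃ y, y = σ.symm r := ⟨_, rfl⟩
  have hσy : σ y = r := by rw [hy, Equiv.apply_symm_apply]
  have hxy : x ≠ y := by
    intro h
    rw [h, hσy] at hx3
    exact lt_irrefl _ hx3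
  obtain ⟨τ, hτd⟩ : ∃ τ : Equiv.Perm ι, τ = (Equiv.swap x y).trans σ := ⟨_, rfl⟩
  have hτx : τ x = r := by rw [hτd, Equiv.trans_apply, Equiv.swap_apply_left, hσy]
  have hτy : τ y = σ x := by rw [hτd, Equiv.trans_apply, Equiv.swap_apply_right]
  have hτ : ∀ c, c ≠ x → c ≠ y → τ c = σ c := fun c h1 h2 => by
    rw [hτd, Equiv.trans_apply, Equiv.swap_apply_of_ne_of_ne h1 h2]
  have hf : Feas t j τ := by
    intro c
    by_cases h1 : c = x
    · rw [h1, hτx]; exact (hσ' x).trans hx2
    by_cases h2 : c = y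
    · rw [h2, hτy]
      have h3 := hσ y
      rw [hσy] at h3
      omega
    · rw [hτ c h1 h2]; exact hσ c
  have hw := hopt τ hf
  unfold Wt at hw
  have e1 : ∀ ρ : Equiv.Perm ι, ∑ c, cl c * t (ρ c) = cl x * t (ρ x) +
      (cl y * t (ρ y) + ∑ c ∈ (Finset.univ.erase x).erase y, cl c * t (ρ c)) := by
    intro ρ
    rw [← Finset.add_sum_erase _ _ (Finset.mem_univ x),
      ← Finset.add_sum_erase _ _ (Finset.mem_erase.2 ⟨hxy.symm, Finset.mem_univ y⟩)]
  have e2 : ∑ c ∈ (Finset.univ.erase x).erase y, cl c * t (τ c) =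
      ∑ c ∈ (Finset.univ.erase x).erase y, cl c * t (σ c) := by
    apply Finset.sum_congr rfl
    intro c hc
    rw [Finset.mem_erase, Finset.mem_erase] at hc
    rw [hτ c hc.2.1 hc.1]
  rw [e1, e1, e2, hτx, hτy, hσy] at hw
  rw [← hy, ← hx1] at hlt
  nlinarith

theorem u : StU := by
  intro ι _ _ t j cl ht σ σ' hσ hσ' ho ho'
  by_contra hcon
  push Not at hcon
  obtain ⟨r0, hr0⟩ := hcon
  obtain ⟨r, hr, hmin⟩ := Finset.exists_min_image
    (Finset.univ.filter (fun r => cl (σ.symm r) ≠ cl (σ'.symm r))) t ⟨r0, by simpa using hr0⟩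
  rw [Finset.mem_filter] at hr
  have h1 : ∀ s, t s < t r → cl (σ.symm s) = cl (σ'.symm s) := by
    intro s hs
    by_contra hne
    have := hmin s (by simpa using hne)
    omega
  rcases lt_or_gt_of_ne hr.2 with h | h
  · exact core t j cl σ' σ hσ' hσ ho' r (fun s hs => (h1 s hs).symm) h ht
  · exact core t j cl σ σ' hσ hσ' ho r h1 h ht

end Pool.Agent.K7.H3.D4
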