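import Pool.Agent.K7.H72.IP.Stm

set_option autoImplicit false

/-! Project IP, job DISJ: closure under disjoint unions. -/

namespace Pool.Agent.K7.H3.IPDISJ

open SimpleGraph Finset Pool.Agent.K7.H72.IP

lemma emb_sum {V W U : Type} {H : SimpleGraph V} {K : SimpleGraph W} {G : SimpleGraph U}
    (φ : H ↪g G) (ψ : K ↪g G)
    (h : ∀ x y, ψ x ≠ φ y ∧ ¬ G.Adj (ψ x) (φ y)) : Nonempty (H ⊕g K ↪g G) := by
  refine ⟨⟨⟨Sum.elim φ ψ, ?_⟩, ?_⟩⟩
  · rintro (a | a) (b | b) hab
    · exact congrArg _ (φ.injective hab)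
    · exact absurd hab.symm (h b a).1
    · exact absurd hab (h a b).1
    · exact congrArg _ (ψ.injective hab)
  · rintro (a | a) (b | b)
    · change G.Adj (φ a) (φ b) ↔ _
      rw [sum_adj_inl]
      exact φ.map_adj_iff
    · change G.Adj (φ a) (ψ b) ↔ _
      simpa using fun hh => (h b a).2 hh.symm
    · change G.Adj (ψ a) (φ b) ↔ _
      simpa using (h a b).2
    · change G.Adj (ψ a) (ψ b) ↔ _
      rw [sum_adj_inr]
      exact ψ.map_adj_iff

open Classical in
/-- the number of edges near `x` -/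
noncomputable def inc {n : ℕ} (G : SimpleGraph (Fin n)) (x : Fin n) : ℕ :=
  (G.edgeFinset.filter fun e => ∃ a ∈ e, a = x ∨ G.Adj a x).card

open Classical in
lemma ncard_filter {n : ℕ} (G : SimpleGraph (Fin n)) (P : Sym2 (Fin n) → Prop) :
    {e : Sym2 (Fin n) | e ∈ G.edgeSet ∧ P e}.ncard = (G.edgeFinset.filter P).card := by
  rw [← Set.ncard_coe_finset]
  congr 1
  ext e
  simp

open Classical in
lemma ncard_edges {n : ℕ} (G : SimpleGraph (Fin n)) : G.edgeSet.ncard = G.edgeFinset.card := by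
  rw [← Set.ncard_coe_finset]
  congr 1
  ext e
  simp

open Classical in
/-- edges are inside `S` or near the image of `φ` -/
lemma cover {V : Type} [Fintype V] {n : ℕ} (G : SimpleGraph (Fin n)) (φ : V → Fin n) :
    G.edgeFinset.card ≤
      eIn G (univ.filter fun a => ∀ y, a ≠ φ y ∧ ¬ G.Adj a (φ y)) + ∑ y, inc G (φ y) := by
  unfold eIn
  rw [ncard_filter]
  have h1 : G.edgeFinset ⊆ (G.edgeFinset.filter fun e => ∀ x ∈ e, x ∈
      (univ.filter fun a => ∀ y, a ≠ φ y ∧ ¬ G.Adj a (φ y))) ∪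
      univ.biUnion (fun y => G.edgeFinset.filter fun e => ∃ a ∈ e, a = φ y ∨ G.Adj a (φ y)) := by
    intro e he
    rw [mem_union, mem_biUnion]
    by_cases hc : ∀ x ∈ e, x ∈ (univ.filter fun a => ∀ y, a ≠ φ y ∧ ¬ G.Adj a (φ y))
    · exact Or.inl (mem_filter.2 ⟨he, hc⟩)
    · right
      push Not at hc
      obtain ⟨a, ha, hna⟩ := hc
      have h2 : ¬ ∀ y, a ≠ φ y ∧ ¬ G.Adj a (φ y) := fun hh => hna (mem_filter.2 ⟨mem_univ _, hh⟩)
      push Not at h2
      obtain ⟨y, hy⟩ := h2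
      refine ⟨y, mem_univ _, mem_filter.2 ⟨he, a, ha, ?_⟩⟩
      by_cases h3 : a = φ y
      · exact Or.inl h3
      · exact Or.inr (hy h3)
  have h3 : (univ.biUnion (fun y => G.edgeFinset.filter fun e => ∃ a ∈ e, a = φ y ∨ G.Adj a (φ y))).card ≤
      ∑ y, inc G (φ y) := card_biUnion_le
  have h4 := (card_le_card h1).trans (card_union_le _ _)
  exact h4.trans (Nat.add_le_add (le_of_eq (by congr!)) h3)

open Classical in
/-- edges are inside the complement of `B` or meet `B` -/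
lemma cover2 {n : ℕ} (G : SimpleGraph (Fin n)) (B : Finset (Fin n)) :
    G.edgeFinset.card ≤ eIn G Bᶜ + B.card * n := by
  unfold eIn
  rw [ncard_filter]
  have h1 : G.edgeFinset ⊆ (G.edgeFinset.filter fun e => ∀ x ∈ e, x ∈ Bᶜ) ∪
      (B ×ˢ (univ : Finset (Fin n))).image (fun p => s(p.1, p.2)) := by
    intro e he
    rw [mem_union]
    by_cases hc : ∀ x ∈ e, x ∈ Bᶜ
    · exact Or.inl (mem_filter.2 ⟨he, hc⟩)
    · right
      push Not at hc
      obtain ⟨a, ha, hna⟩ := hc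
      obtain ⟨b, rfl⟩ := ha
      refine mem_image.2 ⟨(a, b), mem_product.2 ⟨?_, mem_univ _⟩, rfl⟩
      simpa using hna
  have h3 : ((B ×ˢ (univ : Finset (Fin n))).image (fun p => s(p.1, p.2))).card ≤ B.card * n := by
    refine card_image_le.trans ?_
    rw [card_product, card_univ, Fintype.card_fin]
  have h4 := (card_le_card h1).trans (card_union_le _ _)
  exact h4.trans (Nat.add_le_add (le_of_eq (by congr!)) h3)

open Classical in
/-- double counting -/
lemma double {n m t h : ℕ} (ht : 1 ≤ t) (hh : 1 ≤ h) (G : SimpleGraph (Fin n)) (x : Fin m → Fin n)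
    (hm : m = 8 * h * t) (hx : ∀ i, G.edgeFinset.card ≤ 2 * h * inc G (x i)) :
    G.edgeFinset.card ≤ 4 * h * (G.edgeFinset.filter fun e =>
      2 * t ≤ {i : Fin m | ∃ a ∈ e, a = x i ∨ G.Adj a (x i)}.ncard).card := by
  have hc : ∀ e : Sym2 (Fin n), {i : Fin m | ∃ a ∈ e, a = x i ∨ G.Adj a (x i)}.ncard =
      (univ.filter fun i : Fin m => ∃ a ∈ e, a = x i ∨ G.Adj a (x i)).card := by
    intro e
    rw [← Set.ncard_coe_finset]
    congr 1
    ext i
    simp
  simp_rw [hc]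
  set E := G.edgeFinset with hE
  set c : Sym2 (Fin n) → ℕ := fun e => (univ.filter fun i : Fin m => ∃ a ∈ e, a = x i ∨ G.Adj a (x i)).card with hcdef
  have h1 : ∑ i, inc G (x i) = ∑ e ∈ E, c e := by
    simp only [inc, hcdef, card_filter]
    rw [sum_comm]
  have h2 : m * E.card ≤ 2 * h * ∑ e ∈ E, c e := by
    rw [← h1, mul_sum]
    calc m * E.card = ∑ _i : Fin m, E.card := by simp
      _ ≤ _ := sum_le_sum fun i _ => hx i
  have h3 : ∑ e ∈ E, c e ≤ (E.filter fun e => 2 * t ≤ c e).card * m + 2 * t * E.card := by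
    rw [← sum_filter_add_sum_filter_not E (fun e => 2 * t ≤ c e)]
    refine Nat.add_le_add ?_ ?_
    · refine (sum_le_card_nsmul _ _ m fun e _ => ?_).trans (by simp)
      calc c e ≤ (univ : Finset (Fin m)).card := card_le_card (filter_subset _ _)
        _ = m := by simp
    · calc ∑ e ∈ E.filter (fun e => ¬ 2 * t ≤ c e), c e ≤
          (E.filter (fun e => ¬ 2 * t ≤ c e)).card • (2 * t) :=
            sum_le_card_nsmul _ _ (2 * t) fun e he => by
              have := (mem_filter.1 he).2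
              omega
        _ ≤ 2 * t * E.card := by
            rw [smul_eq_mul, mul_comm]
            exact Nat.mul_le_mul_left _ (card_le_card (filter_subset _ _))
  set Wn := (E.filter fun e => 2 * t ≤ c e).card with hW
  set s := ∑ e ∈ E, c e
  -- 8ht e ≤ 2h s ≤ 2h (W m + 2 t e)
  have h4 : 8 * h * t * E.card ≤ 2 * h * (Wn * (8 * h * t) + 2 * t * E.card) := by
    calc 8 * h * t * E.card = m * E.card := by rw [hm]
      _ ≤ 2 * h * s := h2
      _ ≤ 2 * h * (Wn * m + 2 * t * E.card) := Nat.mul_le_mul_left _ h3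
      _ = _ := by rw [hm]
  have h5 : 4 * h * t * E.card ≤ 4 * h * t * (4 * h * Wn) := by nlinarith
  exact Nat.le_of_mul_le_mul_left h5 (by positivity)

theorem t (hS : StSub) (hT : StTouch) (hX : StExS) : StDisj := by
  classical
  intro V W _ _ H K hHe hKe hH hK hQH hQK
  have := Fintype.ofFinite V
  obtain ⟨f1, hf1⟩ := hQH
  obtain ⟨f2, hf2⟩ := hQK
  have hVne : Nonempty V := by
    obtain ⟨e, he⟩ := hHe
    induction e with
    | h a b => exact ⟨a⟩
  set h : ℕ := Fintype.card V with hh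
  have hh1 : 1 ≤ h := Fintype.card_pos
  refine ⟨fun t => 2 * |f2 t| + |f1 t| + 2 * ((8 * h * t : ℕ) + (4 * h * ((8 * h * t) + 2 ^ (8 * h * t) * t) : ℕ)), ?_⟩
  intro t ht n hn G hind hno
  obtain ⟨x1, x2, x3⟩ := hX V W H K hHe hKe n
  set X : ℕ := extremalNumber n (H ⊕g K) with hXdef
  rw [ncard_edges]
  have hF0 : (0 : ℝ) ≤ 2 * |f2 t| + |f1 t| + 2 * ((8 * h * t : ℕ) + (4 * h * ((8 * h * t) + 2 ^ (8 * h * t) * t) : ℕ)) := by
    positivity
  rcases Nat.lt_or_ge n 2 with hn2 | hn2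
  · have h0 : G.edgeFinset = ∅ := by
      rw [eq_empty_iff_forall_notMem]
      intro e he
      induction e with
      | h a b =>
        rw [mem_edgeFinset, mem_edgeSet] at he
        exact he.ne (Fin.ext (by omega))
    rw [h0, card_empty]
    push_cast
    positivity
  have hx3 := x3 hn2
  set m : ℕ := 8 * h * t with hm
  set e : ℕ := G.edgeFinset.card with he
  set M : ℕ := m + 4 * h * (m + 2 ^ m * t) with hM
  have hS1 := hS V H f1 hH hf1 t ht n hn G hno
  have hS2 := hS W K f2 hK hf2 t ht n hn G hno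
  have hX0 : (0 : ℝ) ≤ X := Nat.cast_nonneg _
  have hM2 : |f2 t| * (extremalNumber n K : ℝ) ≤ |f2 t| * X :=
    mul_le_mul_of_nonneg_left (by exact_mod_cast x2) (abs_nonneg _)
  have hM1 : |f1 t| * (extremalNumber n H : ℝ) ≤ |f1 t| * X :=
    mul_le_mul_of_nonneg_left (by exact_mod_cast x1) (abs_nonneg _)
  have hMn : (M * n : ℝ) ≤ M * (2 * X) :=
    mul_le_mul_of_nonneg_left (by exact_mod_cast hx3) (Nat.cast_nonneg _)
  have hp1 : 0 ≤ |f1 t| * (X : ℝ) := by positivity
  have hp2 : 0 ≤ |f2 t| * (X : ℝ) := by positivity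
  have hgoal : (e : ℝ) ≤ 2 * (|f2 t| * X) + |f1 t| * X + M * n →
      (e : ℝ) ≤ (2 * |f2 t| + |f1 t| + 2 * ((m : ℕ) + (4 * h * (m + 2 ^ m * t) : ℕ))) * X := by
    intro h1
    have h2 : ((m : ℕ) + (4 * h * (m + 2 ^ m * t) : ℕ) : ℝ) = M := by
      rw [hM]
      push_cast
      ring
    rw [h2]
    calc (e : ℝ) ≤ _ := h1
      _ ≤ 2 * (|f2 t| * X) + |f1 t| * X + M * (2 * X) := by linarith
      _ = _ := by ring
  apply hgoal
  have hMn0 : (0 : ℝ) ≤ M * n := by positivity
  by_cases hbig : (e : ℝ) ≤ 2 * (|f2 t| * X)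
  · linarith
  push Not at hbig
  -- every induced copy of `H` has a heavy vertex
  have hheavy : ∀ φ : H ↪g G, ∃ y, e ≤ 2 * h * inc G (φ y) := by
    intro φ
    by_contra hcon
    push Not at hcon
    have h1 := hS2 (univ.filter fun a => ∀ y, a ≠ φ y ∧ ¬ G.Adj a (φ y)) (by
      rintro ⟨ψ, hψ⟩
      obtain ⟨χ⟩ := emb_sum φ ψ (fun x y => (mem_filter.1 (hψ x)).2 y)
      exact hind.false χ)
    have h2 := cover G φ
    have h3 : 2 * h * ∑ y, inc G (φ y) ≤ h * e := by
      rw [mul_sum]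
      calc ∑ y, 2 * h * inc G (φ y) ≤ ∑ _y : V, e := sum_le_sum fun y _ => (hcon y).le
        _ = h * e := by simp [hh]
    have h4 : 2 * ∑ y, inc G (φ y) ≤ e := by
      have : h * (2 * ∑ y, inc G (φ y)) ≤ h * e := by
        calc _ = 2 * h * ∑ y, inc G (φ y) := by ring
          _ ≤ _ := h3
      exact Nat.le_of_mul_le_mul_left this (by omega)
    have h5 : (e : ℝ) ≤ (eIn G (univ.filter fun a => ∀ y, a ≠ φ y ∧ ¬ G.Adj a (φ y)) : ℝ) +
        (∑ y, inc G (φ y) : ℕ) := by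
      exact_mod_cast h2
    have h6 : 2 * ((∑ y, inc G (φ y) : ℕ) : ℝ) ≤ e := by exact_mod_cast h4
    linarith
  set B : Finset (Fin n) := univ.filter fun x => e ≤ 2 * h * inc G x with hB
  have hB1 := hS1 Bᶜ (by
    rintro ⟨φ, hφ⟩
    obtain ⟨y, hy⟩ := hheavy φ
    have := hφ y
    rw [mem_compl] at this
    exact this (mem_filter.2 ⟨mem_univ _, hy⟩))
  have hB2 := cover2 G B
  rcases Nat.lt_or_ge B.card m with hBm | hBm
  · have h1 : e ≤ eIn G Bᶜ + M * n := by
      refine hB2.trans (Nat.add_le_add_left (Nat.mul_le_mul_right _ ?_) _)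
      omega
    have h2 : (e : ℝ) ≤ (eIn G Bᶜ : ℝ) + M * n := by exact_mod_cast h1
    linarith
  · obtain ⟨B', hB's, hB'c⟩ := exists_subset_card_eq hBm
    have h1 := double ht hh1 G (B'.orderEmbOfFin hB'c) hm (fun i =>
      (mem_filter.1 (hB's (B'.orderEmbOfFin_mem hB'c i))).2)
    have h2 := hT t m ht n G hno (B'.orderEmbOfFin hB'c) (B'.orderEmbOfFin hB'c).injective
    rw [ncard_filter] at h2
    have h3 : e ≤ M * n := by
      calc e ≤ 4 * h * ((m + 2 ^ m * t) * n) := h1.trans (Nat.mul_le_mul_left _ (by convert h2))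
        _ = (4 * h * (m + 2 ^ m * t)) * n := by ring
        _ ≤ M * n := Nat.mul_le_mul_right _ (by omega)
    have h4 : (e : ℝ) ≤ M * n := by exact_mod_cast h3
    linarith

end Pool.Agent.K7.H3.IPDISJ
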