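import Pool.Agent.K7.H80.MD.Stm

set_option autoImplicit false

/-! Project MD, job DET. -/

namespace Pool.Agent.K7.H3.MDDET

open Finset Pool.Agent.K7.H80.MD

lemma cnt (S : Finset ℕ) (lo L : ℝ) (hL : 0 ≤ L) (h : ∀ x ∈ S, lo ≤ x ∧ (x : ℝ) ≤ lo + L) :
    (S.card : ℝ) ≤ L + 1 := by
  rcases S.eq_empty_or_nonempty with rfl | hne
  · simp
    linarith
  · set m := S.min' hne with hm
    have hsub : S ⊆ Icc m (m + ⌊L⌋₊) := by
      intro x hx
      rw [mem_Icc]
      refine ⟨S.min'_le x hx, ?_⟩
      have h1 := (h x hx).2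
      have h2 := (h m (S.min'_mem hne)).1
      have h3 : m ≤ x := S.min'_le x hx
      have h4 : ((x - m : ℕ) : ℝ) ≤ L := by
        rw [Nat.cast_sub h3]
        linarith
      have h5 := Nat.le_floor h4
      omega
    have h1 := card_le_card hsub
    rw [Nat.card_Icc] at h1
    have h2 : S.card ≤ ⌊L⌋₊ + 1 := by omega
    have h3 : (S.card : ℝ) ≤ (⌊L⌋₊ : ℝ) + 1 := by exact_mod_cast h2
    have h4 := Nat.floor_le hL
    linarith

lemma map_eq {n : ℕ} (G : SimpleGraph (Fin n)) (W : Finset (Fin n))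
    (h3 : ∀ u v : Fin n, G.Reachable u v ∧ G.dist u v ≤ 3) (u v : Fin n)
    (h0 : u ∈ W ↔ v ∈ W) (h1 : nbr G W u = nbr G W v) (h2 : two G W u = two G W v) :
    Multiset.map (fun w => G.dist u w) W.val = Multiset.map (fun w => G.dist v w) W.val := by
  classical
  have hc : ∀ (u : Fin n) (d : ℕ), Multiset.count d (Multiset.map (fun w => G.dist u w) W.val) =
      (W.filter fun w => G.dist u w = d).card := by
    intro u d
    rw [Multiset.count_map, Finset.card_def, Finset.filter_val]
    congr 1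
    refine Multiset.filter_congr fun w _ => ?_
    exact eq_comm
  have e0 : ∀ u, (W.filter fun w => G.dist u w = 0).card = if u ∈ W then 1 else 0 := by
    intro u
    have h4 : (W.filter fun w => G.dist u w = 0) = W.filter (fun w => w = u) := by
      refine filter_congr fun w _ => ⟨fun h => ((h3 u w).1.dist_eq_zero_iff.1 h).symm, fun h => ?_⟩
      rw [h, SimpleGraph.dist_self]
    rw [h4, Finset.filter_eq' W u]
    split_ifs <;> simp
  have e1 : ∀ u, (W.filter fun w => G.dist u w = 1).card = nbr G W u := by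
    intro u
    unfold nbr
    refine congrArg Finset.card ?_
    ext w
    simp only [mem_filter, SimpleGraph.dist_eq_one_iff_adj]
  have e2 : ∀ u, (W.filter fun w => G.dist u w = 2).card = two G W u := by
    intro u
    unfold two
    refine congrArg Finset.card ?_
    ext w
    simp only [mem_filter]
  have hs : ∀ u, W.card = ∑ d ∈ range 4, (W.filter fun w => G.dist u w = d).card := fun u =>
    card_eq_sum_card_fiberwise (f := fun w => G.dist u w) (fun w _ => by
      have := (h3 u w).2
      simp only [coe_range, Set.mem_Iio]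
      omega)
  have su := hs u
  have sv := hs v
  simp only [sum_range_succ, sum_range_zero, zero_add] at su sv
  rw [e0, e1, e2] at su sv
  have hif : (if u ∈ W then 1 else 0 : ℕ) = if v ∈ W then 1 else 0 := by
    simp only [h0]
  have key : ∀ d, (W.filter fun w => G.dist u w = d).card = (W.filter fun w => G.dist v w = d).card := by
    intro d
    rcases lt_or_ge d 4 with hd | hd
    · interval_cases d
      · rw [e0, e0, hif]
      · rw [e1, e1, h1]
      · rw [e2, e2, h2]
      · omega
    · have h4 : ∀ u, (W.filter fun w => G.dist u w = d) = ∅ := fun u =>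
        filter_eq_empty_iff.2 fun w _ h => by
          have := (h3 u w).2
          omega
      rw [h4, h4]
  ext d
  rw [hc, hc, key]

theorem t (hA : StA) (hB : StB) (hC : StC) : StDet := by
  classical
  rintro n p R G hp hnp hR hmix hdeg h3 hTM hbig ⟨W, hW⟩
  have hA1 := hA n p G hp hnp hmix W
  obtain ⟨c, hB1⟩ := hB n p G hp hnp hmix hdeg W
  set D : ℝ := n * p with hD
  set q : ℝ := Real.sqrt D with hq
  have hq0 : 0 ≤ q := Real.sqrt_nonneg _
  set A := univ.filter fun v : Fin n => 56 * q < |(nbr G W v : ℝ) - p * W.card| with hAd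
  set B := univ.filter fun v : Fin n => 1064 * D * q < |(walk2 G W v : ℝ) - c| with hBd
  set T := univ.filter fun v : Fin n => 8 * R < (TM G v : ℝ) with hTd
  have hT : (T.card : ℝ) ≤ n / 8 := by
    have h1 : (T.card : ℝ) * (8 * R) ≤ n * R := by
      calc (T.card : ℝ) * (8 * R) = ∑ v ∈ T, (8 * R) := by simp
        _ ≤ ∑ v ∈ T, (TM G v : ℝ) := sum_le_sum fun v hv => (mem_filter.1 hv).2.le
        _ ≤ ∑ v, (TM G v : ℝ) :=
            sum_le_sum_of_subset_of_nonneg (filter_subset _ _) fun _ _ _ => Nat.cast_nonneg _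
        _ ≤ n * R := hTM
    have h2 : (T.card : ℝ) * 8 * R ≤ n * R := by linarith
    have h3 : (T.card : ℝ) * 8 ≤ n := le_of_mul_le_mul_right h2 hR
    linarith
  set g := univ \ (A ∪ B ∪ T) with hg
  have hgc : (n : ℝ) * 3 / 8 ≤ g.card := by
    have h1 : (univ : Finset (Fin n)).card ≤ g.card + (A ∪ B ∪ T).card := by
      rw [hg, card_sdiff_of_subset (subset_univ _)]
      omega
    have h2 : (A ∪ B ∪ T).card ≤ A.card + B.card + T.card :=
      (card_union_le _ _).trans (Nat.add_le_add_right (card_union_le _ _) _)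
    rw [card_univ, Fintype.card_fin] at h1
    have h3 : (n : ℝ) ≤ g.card + (A.card + B.card + T.card) := by
      exact_mod_cast h1.trans (Nat.add_le_add_left h2 _)
    linarith
  have hgm : ∀ v ∈ g, |(nbr G W v : ℝ) - p * W.card| ≤ 56 * q ∧ |(walk2 G W v : ℝ) - c| ≤ 1064 * D * q ∧
      (TM G v : ℝ) ≤ 8 * R := by
    intro v hv
    rw [hg, mem_sdiff, mem_union, mem_union] at hv
    push Not at hv
    obtain ⟨-, ⟨h1, h2⟩, h4⟩ := hv
    refine ⟨?_, ?_, ?_⟩
    · by_contra h
      exact h1 (mem_filter.2 ⟨mem_univ _, not_le.1 h⟩)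
    · by_contra h
      exact h2 (mem_filter.2 ⟨mem_univ _, not_le.1 h⟩)
    · by_contra h
      exact h4 (mem_filter.2 ⟨mem_univ _, not_le.1 h⟩)
  set S1 := g.image (nbr G W) with hS1
  set S2 := g.image (two G W) with hS2
  have hD0 : 0 ≤ D := by linarith
  have c1 : (S1.card : ℝ) ≤ 112 * q + 1 := by
    refine cnt S1 (p * W.card - 56 * q) (112 * q) (by positivity) fun x hx => ?_
    obtain ⟨v, hv, rfl⟩ := mem_image.1 hx
    have h1 := abs_le.1 (hgm v hv).1
    constructor <;> linarith [h1.1, h1.2]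
  have c2 : (S2.card : ℝ) ≤ (2128 * D * q + 8 * D + 8 * R) + 1 := by
    refine cnt S2 (c - 1064 * D * q - 8 * D - 8 * R) (2128 * D * q + 8 * D + 8 * R) (by positivity) fun x hx => ?_
    obtain ⟨v, hv, rfl⟩ := mem_image.1 hx
    obtain ⟨h1, h2, h4⟩ := hgm v hv
    have h5 := abs_le.1 h2
    obtain ⟨h6, h7⟩ := hC n G W v
    have h6' : (two G W v : ℝ) ≤ walk2 G W v := by exact_mod_cast h6
    have h7' : (walk2 G W v : ℝ) ≤ two G W v + nbr G univ v + TM G v := by exact_mod_cast h7
    have h8 := hdeg v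
    have h9 : (nbr G univ v : ℝ) ≤ 8 * D := by
      rw [hD]
      linarith
    constructor <;> linarith [h5.1, h5.2]
  have hinj : Set.InjOn (fun v : Fin n => (decide (v ∈ W), nbr G W v, two G W v)) g := by
    intro u hu v hv huv
    by_contra hne
    simp only [Prod.mk.injEq, decide_eq_decide] at huv
    exact hW u v hne (map_eq G W h3 u v huv.1 huv.2.1 huv.2.2)
  have hcard : g.card ≤ 2 * (S1.card * S2.card) := by
    rw [← card_image_of_injOn hinj]
    have hsub : g.image (fun v : Fin n => (decide (v ∈ W), nbr G W v, two G W v)) ⊆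
        (univ : Finset Bool) ×ˢ (S1 ×ˢ S2) := by
      intro x hx
      obtain ⟨v, hv, rfl⟩ := mem_image.1 hx
      exact mem_product.2 ⟨mem_univ _, mem_product.2 ⟨mem_image_of_mem _ hv, mem_image_of_mem _ hv⟩⟩
    refine (card_le_card hsub).trans ?_
    rw [card_product, card_product, card_univ, Fintype.card_bool]
  have hcard' : (g.card : ℝ) ≤ 2 * ((112 * q + 1) * ((2128 * D * q + 8 * D + 8 * R) + 1)) := by
    calc (g.card : ℝ) ≤ 2 * ((S1.card : ℝ) * S2.card) := by exact_mod_cast hcard
      _ ≤ _ := by gcongr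
  set X : ℝ := (q + 1) * (D * q + D + R + 1) with hX
  have hX0 : 0 < X := by positivity
  have h10 : (112 * q + 1) * ((2128 * D * q + 8 * D + 8 * R) + 1) ≤ (112 * (q + 1)) * (2128 * (D * q + D + R + 1)) := by
    have h11 : 112 * q + 1 ≤ 112 * (q + 1) := by linarith
    have hDq : 0 ≤ D * q := by positivity
    have h12 : (2128 * D * q + 8 * D + 8 * R) + 1 ≤ 2128 * (D * q + D + R + 1) := by nlinarith
    exact mul_le_mul h11 h12 (by positivity) (by positivity)
  have h13 : (112 * (q + 1)) * (2128 * (D * q + D + R + 1)) = 238336 * X := by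
    rw [hX]
    ring
  have h14 : (10 : ℝ) ^ 7 * X < n := by
    have h15 : (10 : ℝ) ^ 7 * X = (10 : ℝ) ^ 7 * (q + 1) * (D * q + D + R + 1) := by rw [hX]; ring
    rw [h15]
    exact hbig
  norm_num at h14
  linarith

end Pool.Agent.K7.H3.MDDET
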