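import Pool.Agent.K7.H81.PD.Stm3

/-! Project PD, job DUA3 (after helper57's file for DUA). -/

set_option autoImplicit false

noncomputable section

open MeasureTheory Filter Topology
open scoped ContDiff

namespace Pool.Agent.K7.H3.PDDUA3

open Pool.Agent.K7.H81.PD

variable {N : ℕ}

lemma pd_cd (i : Fin N) {f : E N → ℝ} (hf : ContDiff ℝ ∞ f) : ContDiff ℝ ∞ (pd i f) := by
  unfold pd
  exact (hf.fderiv_right (m := ∞) (by simp)).clm_apply contDiff_const

lemma lap_cd {f : E N → ℝ} (hf : ContDiff ℝ ∞ f) : ContDiff ℝ ∞ (lap f) := by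
  unfold lap
  exact ContDiff.sum fun i _ => pd_cd i (pd_cd i hf)

lemma pd_sub (i : Fin N) {f g : E N → ℝ} (hf : ContDiff ℝ ∞ f) (hg : ContDiff ℝ ∞ g) :
    pd i (fun x => f x - g x) = fun x => pd i f x - pd i g x := by
  funext x
  unfold pd
  rw [fderiv_fun_sub (hf.differentiable (by simp) x) (hg.differentiable (by simp) x)]
  rfl

lemma lap_sub {f g : E N → ℝ} (hf : ContDiff ℝ ∞ f) (hg : ContDiff ℝ ∞ g) (x : E N) :
    lap (fun x => f x - g x) x = lap f x - lap g x := by
  unfold lap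
  rw [← Finset.sum_sub_distrib]
  apply Finset.sum_congr rfl
  intro i _
  rw [pd_sub i hf hg, pd_sub i (pd_cd i hf) (pd_cd i hg)]

lemma int_cont {Ω : Set (E N)} (hb : Bornology.IsBounded Ω) (m : Measure (E N)) [IsFiniteMeasure m] {g : E N → ℝ}
    (hg : Continuous g) : IntegrableOn g Ω m :=
  (hg.continuousOn.integrableOn_compact hb.isCompact_closure).mono_set subset_closure

lemma pd_cmul (i : Fin N) (c : ℝ) {f : E N → ℝ} (hf : ContDiff ℝ ∞ f) :
    pd i (fun x => c * f x) = fun x => c * pd i f x := by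
  funext x
  unfold pd
  rw [fderiv_const_mul (hf.differentiable (by simp) x)]
  rfl

lemma lap_cmul (c : ℝ) {f : E N → ℝ} (hf : ContDiff ℝ ∞ f) (x : E N) :
    lap (fun x => c * f x) x = c * lap f x := by
  unfold lap
  rw [Finset.mul_sum]
  apply Finset.sum_congr rfl
  intro i _
  rw [pd_cmul i c hf, pd_cmul i c (pd_cd i hf)]

/-- JOB DUA3 -/
theorem t : StDua3 := by
  intro hMax hApr N Ω m u hN hΩ hb hAppr hm hu hsub ζ hζ hl
  obtain ⟨C, hC⟩ := hb.isCompact_closure.exists_bound_of_continuousOn (lap_cd hζ.1).continuous.continuousOn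
  have hC' : ∀ x ∈ Ω, |lap ζ x| ≤ C := fun x hx => hC x (subset_closure hx)
  -- the measurable representative
  set v : E N → ℝ := hu.aestronglyMeasurable.mk u with hv
  have hvm : StronglyMeasurable v := hu.aestronglyMeasurable.stronglyMeasurable_mk
  have hvu : u =ᵐ[volume.restrict Ω] v := hu.aestronglyMeasurable.ae_eq_mk
  set A : Set (E N) := Ω ∩ {x | 0 < v x} with hA
  have hAm : MeasurableSet A := hΩ.measurableSet.inter (measurableSet_lt measurable_const hvm.measurable)
  obtain ⟨θ, hθ1, hθ2, hθ3⟩ := hApr N Ω A hΩ hb hAm Set.inter_subset_left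
  obtain ⟨ζ1, h11, h12⟩ := hAppr (fun _ => 2) contDiff_const 1 one_pos
  have h13 : ∀ x ∈ Ω, lap ζ1 x ≤ -1 := fun x hx => by
    have := (abs_le.1 (h12 x hx)).2
    linarith
  -- the test functions
  set ep : ℕ → ℝ := fun k => 1 / ((k : ℝ) + 1) with hep
  have hep0 : ∀ k, 0 < ep k := fun k => by
    rw [hep]
    positivity
  have hep1 : ∀ k, ep k ≤ 1 := fun k => by
    rw [hep]
    show 1 / ((k : ℝ) + 1) ≤ 1
    rw [div_le_one (by positivity)]
    have : (0 : ℝ) ≤ k := Nat.cast_nonneg k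
    linarith
  have hept : Tendsto ep atTop (𝓝 0) := tendsto_one_div_add_atTop_nhds_zero_nat
  have hex : ∀ k, ∃ z, Tst Ω z ∧ ∀ x ∈ Ω, |lap z x + (θ k x * (-lap ζ x) + ep k)| ≤ ep k := by
    intro k
    exact hAppr (fun x => θ k x * (-lap ζ x) + ep k)
      (((hθ1 k).1.mul (lap_cd hζ.1).neg).add contDiff_const) (ep k) (hep0 k)
  choose z hz1 hz2 using hex
  have hlo : ∀ k, ∀ x ∈ Ω, θ k x * (-lap ζ x) ≤ -lap (z k) x := fun k x hx => by
    have := (abs_le.1 (hz2 k x hx)).2
    linarith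
  have hup : ∀ k, ∀ x ∈ Ω, -lap (z k) x ≤ θ k x * (-lap ζ x) + 2 * ep k := fun k x hx => by
    have := (abs_le.1 (hz2 k x hx)).1
    linarith
  have hz0 : ∀ k, ∀ x ∈ Ω, 0 ≤ z k x := fun k => (hMax N Ω (z k) hN hΩ hb (hz1 k) (fun x hx => by
    have h0 := hlo k x hx
    have h1 := (hθ2 k x).1
    have h2 := hl x hx
    nlinarith)).1
  have hzζ : ∀ k, ∀ x ∈ Ω, z k x ≤ ζ x + 2 * ep k * ζ1 x := by
    intro k x hx
    have hcd : ContDiff ℝ ∞ (fun y => 2 * ep k * ζ1 y) := contDiff_const.mul h11.1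
    have hcd2 : ContDiff ℝ ∞ (fun y => z k y - 2 * ep k * ζ1 y) := (hz1 k).1.sub hcd
    have h1 := (hMax N Ω (fun y => ζ y - (z k y - 2 * ep k * ζ1 y)) hN hΩ hb
      ⟨hζ.1.sub hcd2, fun y hy => by
        show ζ y - (z k y - 2 * ep k * ζ1 y) = 0
        rw [hζ.2 y hy, (hz1 k).2 y hy, h11.2 y hy]
        ring⟩ (fun y hy => by
        rw [lap_sub hζ.1 hcd2, lap_sub (hz1 k).1 hcd, lap_cmul _ h11.1]
        have h1 := (hθ2 k y).2
        have h2 := hl y hy
        have h3 := hup k y hy
        have h4 := h13 y hy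
        have h5 := hep0 k
        nlinarith)).1 x hx
    linarith
  have hle : ∀ k, ∫ x in Ω, u x * (-lap (z k) x) ≤ (∫ x in Ω, ζ x ∂m) + 2 * ep k * ∫ x in Ω, ζ1 x ∂m := by
    intro k
    have h1 := hsub (z k) (hz1 k) (hz0 k)
    have h2 : -∫ x in Ω, u x * lap (z k) x = ∫ x in Ω, u x * (-lap (z k) x) := by
      rw [← integral_neg]
      congr 1
      funext x
      ring
    rw [h2] at h1
    refine h1.trans ?_
    rw [← integral_const_mul, ← integral_add (int_cont hb m hζ.1.continuous)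
      ((int_cont hb m h11.1.continuous).const_mul _)]
    exact setIntegral_mono_on (int_cont hb m (hz1 k).1.continuous)
      ((int_cont hb m hζ.1.continuous).add ((int_cont hb m h11.1.continuous).const_mul _)) hΩ.measurableSet
      (hzζ k)
  have hlim : Tendsto (fun k => ∫ x in Ω, u x * (-lap (z k) x)) atTop
      (𝓝 (∫ x in Ω, max (u x) 0 * (-lap ζ x))) := by
    apply tendsto_integral_of_dominated_convergence (fun x => |u x| * (C + 2))
    · intro k
      exact hu.aestronglyMeasurable.mul (lap_cd (hz1 k).1).continuous.neg.aestronglyMeasurable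
    · exact hu.abs.mul_const (C + 2)
    · intro k
      filter_upwards [ae_restrict_mem hΩ.measurableSet] with x hx
      rw [Real.norm_eq_abs, abs_mul]
      have h1 := hC' x hx
      have h2 := (hθ2 k x)
      have h3 := hlo k x hx
      have h4 := hup k x hx
      have h5 := hl x hx
      have h6 := hep1 k
      have h7 : 0 ≤ θ k x * (-lap ζ x) := mul_nonneg h2.1 (by linarith)
      have h8 : θ k x * (-lap ζ x) ≤ C := by
        have h9 : -lap ζ x ≤ C := (neg_le_abs _).trans h1
        nlinarith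
      have h10 : |-lap (z k) x| ≤ C + 2 := abs_le.2 ⟨by linarith, by linarith⟩
      exact mul_le_mul_of_nonneg_left h10 (abs_nonneg _)
    · filter_upwards [ae_restrict_mem hΩ.measurableSet, hθ3, hvu] with x hx h1 h2
      have h3 : max (u x) 0 * (-lap ζ x) = u x * (A.indicator (fun _ => 1) x * (-lap ζ x)) := by
        by_cases h4 : 0 < v x
        · have h5 : x ∈ A := ⟨hx, h4⟩
          rw [Set.indicator_of_mem h5, max_eq_left (by rw [h2]; exact h4.le)]
          ring
        · have h5 : x ∉ A := fun h => h4 h.2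
          rw [Set.indicator_of_notMem h5, max_eq_right (by rw [h2]; exact not_lt.1 h4)]
          ring
      rw [h3]
      refine Tendsto.const_mul _ ?_
      have h4 := h1.mul_const (-lap ζ x)
      have h5 : Tendsto (fun k => θ k x * (-lap ζ x) + 2 * ep k) atTop
          (𝓝 (A.indicator (fun _ => 1) x * (-lap ζ x))) := by
        have := h4.add (hept.const_mul 2)
        simpa using this
      exact tendsto_of_tendsto_of_tendsto_of_le_of_le h4 h5 (fun k => hlo k x hx) (fun k => hup k x hx)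
  have hfin : -∫ x in Ω, max (u x) 0 * lap ζ x = ∫ x in Ω, max (u x) 0 * (-lap ζ x) := by
    rw [← integral_neg]
    congr 1
    funext x
    ring
  rw [hfin]
  have hr : Tendsto (fun k => (∫ x in Ω, ζ x ∂m) + 2 * ep k * ∫ x in Ω, ζ1 x ∂m) atTop
      (𝓝 (∫ x in Ω, ζ x ∂m)) := by
    have := ((hept.const_mul 2).mul_const (∫ x in Ω, ζ1 x ∂m)).const_add (∫ x in Ω, ζ x ∂m)
    simpa using this
  exact le_of_tendsto_of_tendsto' hlim hr hle

end Pool.Agent.K7.H3.PDDUA3
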